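import Pool.Agent.H84.BR.ClaimDefs
import Pool.Agent.H91.EL.Res
import Pool.Agent.H81.D3.CHS
import Pool.Agent.H83.D3N.Fin
import Pool.Agent.H88.B2.Lemn

set_option autoImplicit false

namespace Pool.Agent.Results.MP_ee74d2_an.BelowTenThirds

open MeasureTheory Set SchwartzMap Pool.Agent.H84.BR.CD
open scoped NNReal ENNReal

/-- The inequality of Q1 in dimension 3 with the full gain (every `σ < 1/p`) for all exponents
`p ≥ p₀`, for some `p₀ < 10/3`. -/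
theorem result : ∃ p₀ : ℝ, p₀ < 10 / 3 ∧ ∀ p σ : ℝ, p₀ ≤ p → σ < 1 / p →
    ∃ C : ℝ≥0, ∀ u₀ u₁ : 𝓢(EE 3, ℂ), solNorm p u₀ u₁ ≤ C * datN p σ u₀ u₁ :=
  Pool.Agent.H91.EL.result_of_fin
    (Pool.Agent.H83.D3N.Fin.fin_of Pool.Agent.H81.D3.CHS.pf_CHS Pool.Agent.H88.B2.All.lemn)

end Pool.Agent.Results.MP_ee74d2_an.BelowTenThirds
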