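import Pool.Agent.H84.BR.ClaimDefs
import Pool.Agent.H82.KT.All

set_option autoImplicit false

namespace Pool.Agent.Results.MP_ee74d2_an.ExplicitRange

open MeasureTheory Set SchwartzMap Pool.Agent.H84.BR.CD
open scoped NNReal ENNReal

/-- The inequality of Q1, for all data and with the full gain, in every dimension `d ≥ 36` and for
all exponents `p ≥ 2 + 28/(11 d - 28)`. -/
theorem result : ∀ (d : ℕ) (p σ : ℝ), 36 ≤ d → 2 + 28 / (11 * (d : ℝ) - 28) ≤ p → σ < 1 / p →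
    ∃ C : ℝ≥0, ∀ u₀ u₁ : 𝓢(EE d, ℂ), solNorm p u₀ u₁ ≤ C * datN p σ u₀ u₁ := by
  intro d p σ hd hp hσ
  obtain ⟨n, rfl⟩ : ∃ n : ℕ, d = n + 1 := ⟨d - 1, by omega⟩
  have h1 : 11 * (((n + 1 : ℕ) : ℝ)) - 28 = 11 * (n : ℝ) - 17 := by push_cast; ring
  rw [h1] at hp
  exact Pool.Agent.H82.KT.All.main n p (by omega) hp σ hσ

end Pool.Agent.Results.MP_ee74d2_an.ExplicitRange
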