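import Pool.Agent.H84.BR.ClaimDefs
import Pool.Agent.H94.M4.Final

set_option autoImplicit false

namespace Pool.Agent.Results.MP_ee74d2_an.ImprovedRange

open MeasureTheory Set SchwartzMap Pool.Agent.H84.BR.CD
open scoped NNReal ENNReal

/-- The inequality of Q1 in all dimensions `d ≥ 3` for all exponents `p ≥ 2 + 8/(3(d-1))`, with the
full gain: every `σ < 1/p`. -/
theorem result (d : ℕ) (hd : 3 ≤ d) (p σ : ℝ) (hp : 2 + 8 / (3 * ((d : ℝ) - 1)) ≤ p)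
    (hσ : σ < 1 / p) :
    ∃ C : ℝ≥0, ∀ u₀ u₁ : 𝓢(EE d, ℂ), solNorm p u₀ u₁ ≤ C * datN p σ u₀ u₁ := by
  obtain ⟨n, rfl⟩ : ∃ n : ℕ, d = n + 1 := ⟨d - 1, by omega⟩
  refine Pool.Agent.H94.M4.Final.q1 (n := n) (by omega) ?_ σ hσ
  have h : (((n + 1 : ℕ) : ℝ) - 1) = n := by push_cast; ring
  rw [h] at hp
  exact hp

end Pool.Agent.Results.MP_ee74d2_an.ImprovedRange
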